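import Pool.Agent.H28.N6.Targets

/-! Row DNRR of `n6_modules`: the estimate near a root of the determinant. -/

set_option autoImplicit false

open MeasureTheory Pool.Agent.H28.N6

namespace Pool.Agent.H79.N6D

section box

variable {F : Type} [NontriviallyNormedField F] [IsUltrametricDist F] {ι : Type} [Fintype ι]
  [DecidableEq ι]

theorem det_le (M : Matrix ι ι F) (h : ∀ i j, ‖M i j‖ ≤ 1) : ‖M.det‖ ≤ 1 := by
  rw [Matrix.det_apply']
  refine IsUltrametricDist.norm_sum_le_of_forall_le_of_nonneg zero_le_one fun σ _ => ?_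
  rw [norm_mul]
  have h1 : ‖((Equiv.Perm.sign σ : ℤ) : F)‖ = 1 := by
    rcases Int.units_eq_one_or (Equiv.Perm.sign σ) with h | h <;> rw [h] <;> simp
  rw [h1, one_mul, norm_prod]
  exact Finset.prod_le_one (fun _ _ => norm_nonneg _) fun i _ => h _ _

omit [DecidableEq ι] in
theorem mulVec_le (M : Matrix ι ι F) (h : ∀ i j, ‖M i j‖ ≤ 1) (z : ι → F)
    (hz : ∀ i, ‖z i‖ ≤ 1) (i : ι) : ‖M.mulVec z i‖ ≤ 1 := by
  show ‖∑ j, M i j * z j‖ ≤ 1
  refine IsUltrametricDist.norm_sum_le_of_forall_le_of_nonneg zero_le_one fun j _ => ?_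
  rw [norm_mul]
  exact mul_le_one₀ (h i j) (norm_nonneg _) (hz j)

theorem adj_le (M : Matrix ι ι F) (h : ∀ i j, ‖M i j‖ ≤ 1) (i j : ι) :
    ‖M.adjugate i j‖ ≤ 1 := by
  rw [Matrix.adjugate_apply]
  refine det_le _ fun k l => ?_
  rw [Matrix.updateRow_apply]
  split_ifs
  · rw [Pi.single_apply]
    split_ifs <;> simp
  · exact h k l

theorem box_iff (U : Matrix ι ι F) (hU : InGL U) (z : ι → F) :
    (∀ i, ‖U.mulVec z i‖ ≤ 1) ↔ ∀ i, ‖z i‖ ≤ 1 := by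
  constructor
  · intro h i
    have h1 := mulVec_le _ (adj_le U hU.1) _ h i
    rw [Matrix.mulVec_mulVec, Matrix.adjugate_mul, Matrix.smul_mulVec, Matrix.one_mulVec,
      Pi.smul_apply, smul_eq_mul, norm_mul, hU.2, one_mul] at h1
    exact h1
  · exact fun h => mulVec_le U hU.1 z h

end box

theorem pf_NRR (hNFR : T_NFR) (hNEA : T_NEA) (hGLO : T_GLO) (hNRM : T_NRM) : T_NRR := by
  intro F _ _ _ _ _ D h2 A B hA hB r hr1 hr2 hiso
  obtain ⟨h, κ, δ, hani, hsym, hκ, hδ, hNF⟩ := hNFR F h2 A B hA hB r hr1 hr2 hiso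
  obtain ⟨C, hC⟩ := hNEA F D h2 h hsym hani
  have hp0 : 0 < ‖D.p‖ := norm_pos_iff.2 D.p0
  have hq1 : (1 : ℝ) ≤ Real.sqrt D.q := by
    rw [Real.one_le_sqrt]
    have := D.hq
    exact_mod_cast (by omega : 1 ≤ D.q)
  obtain ⟨e, he⟩ := exists_pow_lt_of_lt_one hδ D.p1
  -- `κ` is a power of the norm of the uniformizer
  obtain ⟨k0, hk0⟩ : ∃ k0 : ℤ, κ = ‖D.p‖ ^ k0 := by
    have h3 : ‖r + D.p ^ e - r‖ = ‖D.p‖ ^ e := by rw [add_sub_cancel_left, norm_pow]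
    have h4 : r + D.p ^ e ≠ r := by
      intro h5
      rw [h5, sub_self, norm_zero] at h3
      exact (pow_pos hp0 e).ne h3
    obtain ⟨U, ε, -, hε, -⟩ := hNF (r + D.p ^ e) h4 (by rw [h3]; exact he)
    rw [h3] at hε
    have hε0 : ε ≠ 0 := by
      rintro rfl
      rw [norm_zero] at hε
      have := mul_pos hκ (pow_pos hp0 e)
      linarith
    obtain ⟨k1, hk1⟩ := hNRM F D ε hε0
    refine ⟨k1 - e, ?_⟩
    rw [zpow_sub₀ hp0.ne', ← hk1, hε, zpow_natCast, mul_div_cancel_right₀ _ (pow_pos hp0 e).ne']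
  refine ⟨max e (-k0).toNat, |C| * Real.sqrt D.q ^ k0.toNat, fun t k m ht hj => ?_⟩
  have hek : e ≤ k := (le_max_left _ _).trans hj
  have hkk : 0 ≤ k0 + k := by
    have h3 : (-k0).toNat ≤ k := (le_max_right _ _).trans hj
    omega
  obtain ⟨k', hk'⟩ : ∃ k' : ℕ, (k' : ℤ) = k0 + k := ⟨(k0 + k).toNat, Int.toNat_of_nonneg hkk⟩
  have htr : t ≠ r := by
    rintro rfl
    rw [sub_self, norm_zero] at ht
    exact (pow_pos hp0 k).ne ht
  have htd : ‖t - r‖ < δ := by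
    rw [ht]
    exact (pow_le_pow_of_le_one hp0.le D.p1.le hek).trans_lt he
  obtain ⟨U, ε, hU, hε, hUz⟩ := hNF t htr htd
  have hε' : ‖ε‖ = ‖D.p‖ ^ k' := by
    rw [hε, ht, hk0, ← zpow_natCast ‖D.p‖ k, ← zpow_add₀ hp0.ne', ← hk', zpow_natCast]
  have hV : V D (A + t • B) 0 = fun m => vol D {z : Fin 4 → F | (∀ i, ‖z i‖ ≤ 1) ∧
      ‖ε * z 0 ^ 2 + qf h ![z 1, z 2, z 3]‖ ≤ ‖D.p‖ ^ m} := by
    funext m'
    have hdet : U.det ≠ 0 := by
      intro h3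
      have h4 := hU.2
      rw [h3, norm_zero] at h4
      exact zero_ne_one h4
    obtain ⟨c, -, hc1, hc2⟩ := hGLO F D (Fin 4) U hdet
    have h3 := hc2 {z : Fin 4 → F | (∀ i, ‖z i‖ ≤ 1) ∧
      ‖qf (A + t • B) z + 0‖ ≤ ‖D.p‖ ^ m'}
    rw [hc1 hU, one_mul] at h3
    unfold V
    rw [← h3]
    congr 1
    ext z
    show ((∀ i, ‖U.mulVec z i‖ ≤ 1) ∧ ‖qf (A + t • B) (U.mulVec z) + 0‖ ≤ ‖D.p‖ ^ m') ↔
      ((∀ i, ‖z i‖ ≤ 1) ∧ ‖ε * z 0 ^ 2 + qf h ![z 1, z 2, z 3]‖ ≤ ‖D.p‖ ^ m')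
    rw [box_iff U hU, hUz, add_zero]
  rw [hV]
  refine (hC ε k' m hε').trans ?_
  refine mul_le_mul_of_nonneg_right ?_ (by positivity)
  have hkle : k' ≤ k0.toNat + k := by omega
  calc C * Real.sqrt D.q ^ k' ≤ |C| * Real.sqrt D.q ^ (k0.toNat + k) := by
        refine mul_le_mul (le_abs_self C) (pow_le_pow_right₀ hq1 hkle) (by positivity)
          (abs_nonneg C)
    _ = |C| * Real.sqrt D.q ^ k0.toNat * Real.sqrt D.q ^ k := by rw [pow_add, mul_assoc]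

end Pool.Agent.H79.N6D
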