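import Pool.Agent.H28.N6.Targets

/-! Row DPOS of `n6_modules`: the operator `T` is nonnegative in the end. -/

set_option autoImplicit false

open MeasureTheory Pool.Agent.H28.N6

namespace Pool.Agent.H79.N6D

theorem V_nonneg {F : Type} [NontriviallyNormedField F] [MeasurableSpace F] (D : Dat F) {ι : Type}
    [Fintype ι] (G : Matrix ι ι F) (a : F) (m : ℕ) : 0 ≤ V D G a m := ENNReal.toReal_nonneg

theorem pf_POS (hISQ : T_ISQ) (hANI : T_ANI) : T_POS := by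
  intro F _ _ _ _ _ D h2 G hG hdet hiso
  have hq2 : (2 : ℝ) ≤ D.q := by exact_mod_cast D.hq
  have hq0 : (0 : ℝ) < D.q := by linarith
  have key : Ani G → ∃ (c : ℝ) (m0 : ℕ), 0 < c ∧ ∀ m, m0 ≤ m →
      c * ((D.q : ℝ) ^ (2 * m))⁻¹ ≤ TT D.q (V D G 0) m := by
    intro hani
    obtain ⟨⟨m0, hm0⟩, c, C, hc, hcC⟩ := hANI F D 4 G hani
    refine ⟨c / 2, m0, by positivity, fun m hm => ?_⟩
    have h3 := hm0 m hm
    have h4 := (hcC m).1
    have h5 : Real.sqrt D.q ^ (4 * m) = (D.q : ℝ) ^ (2 * m) := by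
      have h6 : 4 * m = 2 * (2 * m) := by ring
      rw [h6, pow_mul, Real.sq_sqrt hq0.le]
    rw [h5] at h4
    unfold TT
    rw [h3]
    have h6 : (D.q : ℝ) ^ 3 * (((D.q : ℝ) ^ 4)⁻¹ * V D G 0 m) = (D.q : ℝ)⁻¹ * V D G 0 m := by
      field_simp
    rw [h6]
    have h7 : (D.q : ℝ)⁻¹ ≤ 1 / 2 := by
      rw [inv_le_comm₀ hq0 (by norm_num)]
      norm_num
      exact D.hq
    have h8 := V_nonneg D G 0 m
    have h9 := V_nonneg D G 0 (m + 1)
    have h10 : (D.q : ℝ)⁻¹ * V D G 0 m ≤ 1 / 2 * V D G 0 m := mul_le_mul_of_nonneg_right h7 h8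
    have h11 : 0 ≤ ((D.q : ℝ) ^ 2 - D.q) * V D G 0 (m + 1) := by
      refine mul_nonneg ?_ h9
      nlinarith
    have h12 : c / 2 * ((D.q : ℝ) ^ (2 * m))⁻¹ = 1 / 2 * (c * ((D.q : ℝ) ^ (2 * m))⁻¹) := by ring
    rw [h12]
    linarith
  refine ⟨?_, key⟩
  by_cases hani : Ani G
  · obtain ⟨c, m0, hc, h⟩ := key hani
    refine ⟨m0, fun m hm => le_trans ?_ (h m hm)⟩
    positivity
  · obtain ⟨m0, h⟩ := hISQ F D h2 G hG hdet hani hiso
    exact ⟨m0, fun m hm => (h m hm).ge⟩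

end Pool.Agent.H79.N6D
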