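import Pool.Agent.H28.N6.Targets

/-! Row DSPL of `n6_modules`: splitting off a vector of nonzero length. -/

set_option autoImplicit false

open MeasureTheory Pool.Agent.H28.N6

namespace Pool.Agent.H79.N6D

theorem pf_SPL : T_SPL := by
  intro F _ n S v hv
  obtain ⟨φ, hφ⟩ : ∃ φ : (Fin (n + 1) → F) →ₗ[F] F, ∀ w, φ w = dotProduct v (S.mulVec w) :=
    ⟨{ toFun := fun w => dotProduct v (S.mulVec w)
       map_add' := fun u w => by rw [Matrix.mulVec_add, dotProduct_add]
       map_smul' := fun a w => by rw [Matrix.mulVec_smul, dotProduct_smul]; rfl }, fun w => rfl⟩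
  have hφv : φ v ≠ 0 := by
    rw [hφ]
    exact hv
  have hrange : LinearMap.range φ = ⊤ := by
    rw [LinearMap.range_eq_top]
    intro c
    refine ⟨(c / φ v) • v, ?_⟩
    rw [map_smul, smul_eq_mul, div_mul_cancel₀ _ hφv]
  have hker : Module.finrank F (LinearMap.ker φ) = n := by
    have h1 := φ.finrank_range_add_finrank_ker
    rw [hrange, finrank_top, Module.finrank_self, Module.finrank_fin_fun] at h1
    omega
  obtain ⟨c, hc1, hc2⟩ : ∃ c : Fin n → Fin (n + 1) → F, LinearIndependent F c ∧
      ∀ i, φ (c i) = 0 := by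
    have bs := Module.finBasisOfFinrankEq F (LinearMap.ker φ) hker
    refine ⟨fun i => (bs i : Fin (n + 1) → F), ?_, fun i => (bs i).2⟩
    exact bs.linearIndependent.map' (LinearMap.ker φ).subtype (Submodule.ker_subtype _)
  have hb : LinearIndependent F (Fin.cons v c : Fin (n + 1) → Fin (n + 1) → F) := by
    refine linearIndependent_finCons.2 ⟨hc1, fun h => hφv ?_⟩
    have h1 : Submodule.span F (Set.range c) ≤ LinearMap.ker φ := by
      rw [Submodule.span_le]
      rintro _ ⟨i, rfl⟩
      exact hc2 i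
    exact h1 h
  obtain ⟨N, hN⟩ : ∃ N : Matrix (Fin (n + 1)) (Fin (n + 1)) F,
      N = Matrix.of (Fin.cons v c : Fin (n + 1) → Fin (n + 1) → F) := ⟨_, rfl⟩
  have hNu : IsUnit N := by
    rw [← Matrix.linearIndependent_rows_iff_isUnit, hN]
    exact hb
  refine ⟨N.transpose, ?_, fun i => ?_, fun i => ?_⟩
  · rw [Matrix.det_transpose]
    exact ((Matrix.isUnit_iff_isUnit_det _).1 hNu).ne_zero
  · rw [hN]
    rfl
  · rw [← hφ]
    have h1 : (fun l => N.transpose l i.succ) = c i := by
      rw [hN]
      rfl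
    rw [h1]
    exact hc2 i

end Pool.Agent.H79.N6D
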